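import Pool.Agent.MQG.StmtsB

set_option autoImplicit false

/-!
# LTI: the norm estimate for the convergence at the counit
-/

namespace Pool.Agent.MQG.H39

open scoped InnerProductSpace InnerProduct Topology
open Complex Filter

variable {κ κ' ι : Type}

/-- `λ` is injective -/
theorem lam_inj (dns : DnsStmt) (M : MU ι) (U : Op (κ × ι)) (hU : Adapted M.W U) {ρ ρ' : Du U}
    (h : lam U ρ = lam U ρ') : ρ = ρ' := by
  refine ContinuousLinearMap.ext_on (dns ι M κ U hU) ?_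
  rintro _ ⟨u, y, rfl⟩
  rw [← inner_lam, ← inner_lam, h]

theorem norm_unitary {α : Type} {U : Op α} (hU : U ∈ unitary (Op α)) (v : L2 α) :
    ‖U v‖ = ‖v‖ := by
  have h1 : star U (U v) = v := by
    have := DFunLike.congr_fun (Unitary.mem_iff.1 hU).1 v
    exact this
  have h2 : ⟪U v, U v⟫_ℂ = ⟪v, v⟫_ℂ := by
    rw [← ContinuousLinearMap.adjoint_inner_right, ← ContinuousLinearMap.star_eq_adjoint, h1]
  rw [inner_self_eq_norm_sq_to_K, inner_self_eq_norm_sq_to_K] at h2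
  have h3 : ‖U v‖ ^ 2 = ‖v‖ ^ 2 := by
    have := congrArg Complex.re h2
    norm_cast at this
  exact (pow_left_inj₀ (norm_nonneg _) (norm_nonneg _) two_ne_zero).1 h3

/-- the distance of a unit vector to its image -/
theorem norm_dist {U : Op (κ × ι)} (hU : U ∈ unitary (Op (κ × ι))) (ξ : L2 κ) (hξ : ‖ξ‖ = 1)
    (z : L2 ι) :
    ‖U (tn ξ z) - tn ξ z‖ = √(2 * ‖z‖ ^ 2 - 2 * (⟪z, co U ξ ξ z⟫_ℂ).re) := by
  have h1 : ‖U (tn ξ z) - tn ξ z‖ ^ 2 = 2 * ‖z‖ ^ 2 - 2 * (⟪z, co U ξ ξ z⟫_ℂ).re := by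
    have h2 := @norm_sub_sq ℂ _ _ _ _ (U (tn ξ z)) (tn ξ z)
    have h3 : ‖tn ξ z‖ = ‖z‖ := by rw [norm_tn, hξ, one_mul]
    rw [norm_unitary hU, h3, ← inner_conj_symm, ← inner_co] at h2
    rw [h2, RCLike.conj_re, RCLike.re_eq_complex_re]
    ring
  rw [← h1, Real.sqrt_sq (norm_nonneg _)]

theorem leg_prod (T : Op ι) (x : L2 κ) (z : L2 ι) :
    leg (Equiv.prodComm κ ι) T (tn x z) = tn x (T z) := by
  have h : ∀ (x : L2 κ) (z : L2 ι), tn x z = tl (Equiv.prodComm κ ι) z x := by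
    intro x z
    ext c
    simp [mul_comm]
  rw [h, leg_tl, ← h]

/-- LTI -/
theorem lti (dns : DnsStmt) (stu : StuStmt) (lfv : LfvStmt) (lpr : LprStmt) : LtiStmt := by
  intro ι M κ WW hW Λ hΛ μ ω ρ x z hμ hω hρ
  obtain ⟨κ', U, ξ, hU, hξ, hl⟩ := stu ι M κ WW hW μ hμ
  obtain ⟨ρ', -, hρ'⟩ := lfv ι M.W κ WW Λ hΛ κ' (U (tn ξ x)) (U (tn ξ z))
  have h1 := lpr ι M.W κ WW Λ hΛ κ' U hU ξ ξ x z ω ρ' hω hρ'
  rw [← hl, ← hρ] at h1
  have h2 : ρ' = ρ := lam_inj dns M WW hW.adapted h1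
  subst h2
  have hd : ∀ v : L2 ι, √(2 * ‖v‖ ^ 2 - 2 * (μ (asl WW v v)).re) = ‖U (tn ξ v) - tn ξ v‖ := by
    intro v
    rw [norm_dist hU.unit ξ hξ, ← inner_lam, hl]
  rw [hd, hd]
  refine ContinuousLinearMap.opNorm_le_bound _ (by positivity) fun a => ?_
  have hω' : ω a = ⟪tn ξ x, leg (Equiv.prodComm κ' ι) (Λ a) (tn ξ z)⟫_ℂ := by
    rw [leg_prod, inner_tn, inner_self_eq_norm_sq_to_K, hξ, hω]
    simp
  have hA : ‖leg (Equiv.prodComm κ' ι) (Λ a)‖ ≤ ‖a‖ :=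
    (norm_leg_le _ _).trans (NonUnitalStarAlgHom.norm_apply_le _ _)
  have hs : ‖tn ξ x‖ = ‖x‖ := by rw [norm_tn, hξ, one_mul]
  have ht : ‖U (tn ξ z)‖ = ‖z‖ := by rw [norm_unitary hU.unit, norm_tn, hξ, one_mul]
  set A := leg (Equiv.prodComm κ' ι) (Λ a)
  have e1 : (ρ' - ω) a = ⟪U (tn ξ x) - tn ξ x, A (U (tn ξ z))⟫_ℂ +
      ⟪tn ξ x, A (U (tn ξ z) - tn ξ z)⟫_ℂ := by
    rw [sub_apply, hρ', hω', inner_sub_left, map_sub, inner_sub_right]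
    ring
  rw [e1]
  calc _ ≤ ‖⟪U (tn ξ x) - tn ξ x, A (U (tn ξ z))⟫_ℂ‖ + ‖⟪tn ξ x, A (U (tn ξ z) - tn ξ z)⟫_ℂ‖ :=
        norm_add_le _ _
    _ ≤ ‖U (tn ξ x) - tn ξ x‖ * (‖a‖ * ‖z‖) + ‖x‖ * (‖a‖ * ‖U (tn ξ z) - tn ξ z‖) := by
        refine add_le_add ?_ ?_
        · refine (norm_inner_le_norm _ _).trans (mul_le_mul_of_nonneg_left ?_ (norm_nonneg _))
          refine (A.le_opNorm _).trans ?_
          rw [ht]
          exact mul_le_mul_of_nonneg_right hA (norm_nonneg _)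
        · refine (norm_inner_le_norm _ _).trans ?_
          rw [hs]
          refine mul_le_mul_of_nonneg_left ?_ (norm_nonneg _)
          exact (A.le_opNorm _).trans (mul_le_mul_of_nonneg_right hA (norm_nonneg _))
    _ = _ := by ring

end Pool.Agent.MQG.H39
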