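import Pool.Agent.MQG.StmtsB
import Pool.Agent.Helper59_MMU.GNS

set_option autoImplicit false

/-!
# VST: a unit coefficient of an adapted unitary is a state
-/

namespace Pool.Agent.MQG.H39

open scoped InnerProductSpace InnerProduct Topology
open Complex Filter

variable {κ κ' ι : Type}

/-- the vector functional of a representation -/
noncomputable def vecFun {A : Type} [NonUnitalCStarAlgebra A] (π : A →⋆ₙₐ[ℂ] Op κ)
    (ξ ζ : L2 κ) : A →L[ℂ] ℂ :=
  LinearMap.mkContinuous
    { toFun := fun a => ⟪ξ, π a ζ⟫_ℂ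
      map_add' := fun a b => by rw [map_add, add_apply, inner_add_right]
      map_smul' := fun r a => by
        rw [map_smul, smul_apply, inner_smul_right, RingHom.id_apply, smul_eq_mul] }
    (‖ξ‖ * ‖ζ‖) (fun a => by
      calc ‖⟪ξ, π a ζ⟫_ℂ‖ ≤ ‖ξ‖ * ‖π a ζ‖ := norm_inner_le_norm _ _
        _ ≤ ‖ξ‖ * (‖π a‖ * ‖ζ‖) := by
          gcongr
          exact ContinuousLinearMap.le_opNorm _ _
        _ ≤ ‖ξ‖ * (‖a‖ * ‖ζ‖) := by
          gcongr
          exact NonUnitalStarAlgHom.norm_apply_le _ _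
        _ = ‖ξ‖ * ‖ζ‖ * ‖a‖ := by ring)

theorem vecFun_apply {A : Type} [NonUnitalCStarAlgebra A] (π : A →⋆ₙₐ[ℂ] Op κ)
    (ξ ζ : L2 κ) (a : A) : vecFun π ξ ζ a = ⟪ξ, π a ζ⟫_ℂ := rfl

/-- the slices of a unitary act non degenerately -/
theorem dense_slices [Nonempty ι] (U : Op (κ × ι)) (hU : U ∈ unitary (Op (κ × ι))) :
    Dense (Submodule.span ℂ {v : L2 κ | ∃ u y x, v = sl U u y x} : Set (L2 κ)) := by
  rw [Submodule.dense_iff_topologicalClosure_eq_top, Submodule.topologicalClosure_eq_top_iff,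
    Submodule.eq_bot_iff]
  intro w hw
  rw [Submodule.mem_orthogonal'] at hw
  obtain ⟨i⟩ := (inferInstance : Nonempty ι)
  classical
  have h1 : ∀ u : L2 ι, tn w u = 0 := by
    intro u
    have h2 : (innerSL ℂ (tn w u)).comp U = 0 := by
      refine ext_tn fun x y => ?_
      rw [ContinuousLinearMap.comp_apply, innerSL_apply_apply, zero_apply, ← inner_sl]
      exact hw _ (Submodule.subset_span ⟨u, y, x, rfl⟩)
    have h3 : ⟪tn w u, U (star U (tn w u))⟫_ℂ = 0 := by
      have := DFunLike.congr_fun h2 (star U (tn w u))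
      rwa [ContinuousLinearMap.comp_apply, innerSL_apply_apply, zero_apply] at this
    have h4 : U (star U (tn w u)) = tn w u := by
      have := DFunLike.congr_fun (Unitary.mem_iff.1 hU).2 (tn w u)
      exact this
    rw [h4, inner_self_eq_zero] at h3
    exact h3
  have h5 := h1 (lp.single 2 i 1)
  have h6 := congrArg norm h5
  rw [norm_tn, norm_zero, lp.norm_single (by norm_num), norm_one, mul_one] at h6
  exact norm_eq_zero.1 h6

/-- VST -/
theorem vst : VstStmt := by
  intro ι _ M κ WW hW κ' U hU ξ hξ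
  obtain ⟨π, hπ⟩ := hW.lift κ' U hU
  refine ⟨vecFun π ξ ξ, ?_, ?_⟩
  · refine H59.GNS.vec_state π ?_ ξ hξ _ fun a => rfl
    refine (dense_slices U hU.unit).mono ?_
    refine SetLike.coe_subset_coe.2 (Submodule.span_mono ?_)
    rintro _ ⟨u, y, x, rfl⟩
    exact ⟨asl WW u y, x, by rw [hπ]⟩
  · refine ContinuousLinearMap.ext fun y => ext_inner_left ℂ fun u => ?_
    rw [inner_lam, vecFun_apply, hπ, inner_sl, inner_co]

end Pool.Agent.MQG.H39
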